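import Pool.Agent.H3.BI.Stm1

/-! Project BD (MP_1354f0), part LAT (helper27): lattice sums, by dyadic shells. -/

set_option autoImplicit false

open Finset

namespace Pool.Agent.H27.BD

open Pool.Agent.H3.BI

lemma LAT_card {d : ℕ} (Y : Finset (Site d)) (z : Site d) (R : ℝ) (hR : 1 ≤ R)
    (h : ∀ y ∈ Y, nrm (y - z) ≤ R) : (Y.card : ℝ) ≤ (5 * R) ^ d := by
  classical
  have h1 : (Y.image fun y => y - z) ⊆
      Fintype.piFinset fun _ : Fin d => Finset.Icc (-⌈R⌉) ⌈R⌉ := by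
    intro x hx
    obtain ⟨y, hy, rfl⟩ := Finset.mem_image.1 hx
    have : y - z ∈ bF d R := (mem_bF R _).2 (h y hy)
    unfold bF at this
    exact (Finset.mem_filter.1 this).1
  have h2 : (Y.image fun y => y - z).card = Y.card :=
    Finset.card_image_of_injective _ (sub_left_injective)
  have h3 := Finset.card_le_card h1
  rw [h2, Fintype.card_piFinset_const, Int.card_Icc] at h3
  have h4 : ((⌈R⌉ + 1 - -⌈R⌉).toNat : ℝ) ≤ 5 * R := by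
    have h5 : (0:ℤ) ≤ ⌈R⌉ + 1 - -⌈R⌉ := by
      have : (0:ℤ) ≤ ⌈R⌉ := Int.ceil_nonneg (by linarith)
      omega
    have h6 : ((⌈R⌉ + 1 - -⌈R⌉).toNat : ℝ) = ((⌈R⌉ + 1 - -⌈R⌉ : ℤ) : ℝ) := by
      exact_mod_cast congrArg (fun t : ℤ => (t : ℝ)) (Int.toNat_of_nonneg h5)
    rw [h6]
    push_cast
    have := Int.ceil_lt_add_one R
    linarith
  calc (Y.card : ℝ) ≤ (((⌈R⌉ + 1 - -⌈R⌉).toNat ^ d : ℕ) : ℝ) := by exact_mod_cast h3
    _ = ((⌈R⌉ + 1 - -⌈R⌉).toNat : ℝ) ^ d := by push_cast; rfl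
    _ ≤ (5 * R) ^ d := pow_le_pow_left₀ (by positivity) h4 d

/-- dyadic index -/
noncomputable def LAT_k {d : ℕ} (z y : Site d) : ℕ := Nat.log 2 ⌊nrm (y - z) + 1⌋₊

lemma LAT_k_le {d : ℕ} (z y : Site d) : (2:ℝ) ^ LAT_k z y ≤ nrm (y - z) + 1 := by
  have h0 := nrm_nonneg (y - z)
  have h1 : ⌊nrm (y - z) + 1⌋₊ ≠ 0 := by
    have : 1 ≤ ⌊nrm (y - z) + 1⌋₊ := Nat.le_floor (by push_cast; linarith)
    omega
  have h2 := Nat.pow_log_le_self 2 h1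
  calc (2:ℝ) ^ LAT_k z y ≤ (⌊nrm (y - z) + 1⌋₊ : ℝ) := by exact_mod_cast h2
    _ ≤ nrm (y - z) + 1 := Nat.floor_le (by linarith)

lemma LAT_lt_k {d : ℕ} (z y : Site d) : nrm (y - z) + 1 < (2:ℝ) ^ (LAT_k z y + 1) := by
  have h2 := Nat.lt_pow_succ_log_self (b := 2) (by norm_num) ⌊nrm (y - z) + 1⌋₊
  have h3 : ⌊nrm (y - z) + 1⌋₊ + 1 ≤ 2 ^ (LAT_k z y + 1) := h2
  calc nrm (y - z) + 1 < (⌊nrm (y - z) + 1⌋₊ : ℝ) + 1 := Nat.lt_floor_add_one _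
    _ ≤ (2:ℝ) ^ (LAT_k z y + 1) := by exact_mod_cast h3

lemma LAT_weight {d : ℕ} (z y : Site d) (s : ℝ) (hs : 0 ≤ s) :
    (nsq (y - z) + 1) ^ (-s) ≤ 2 ^ s * ((2:ℝ) ^ LAT_k z y) ^ (-(2 * s)) := by
  have h0 := nrm_nonneg (y - z)
  have h1 := LAT_k_le z y
  have h2 : ((2:ℝ) ^ LAT_k z y) ^ 2 / 2 ≤ nsq (y - z) + 1 := by
    rw [← nrm_sq]
    have h3 : ((2:ℝ) ^ LAT_k z y) ^ 2 ≤ (nrm (y - z) + 1) ^ 2 :=
      pow_le_pow_left₀ (by positivity) h1 2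
    nlinarith [sq_nonneg (nrm (y - z) - 1)]
  have h4 : (0:ℝ) < ((2:ℝ) ^ LAT_k z y) ^ 2 / 2 := by positivity
  calc (nsq (y - z) + 1) ^ (-s) ≤ (((2:ℝ) ^ LAT_k z y) ^ 2 / 2) ^ (-s) :=
        Real.rpow_le_rpow_of_nonpos h4 h2 (by linarith)
    _ = 2 ^ s * ((2:ℝ) ^ LAT_k z y) ^ (-(2 * s)) := by
        rw [Real.div_rpow (by positivity) (by norm_num), Real.rpow_neg (by norm_num : (0:ℝ) ≤ 2),
          div_inv_eq_mul, mul_comm]
        congr 1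
        rw [← Real.rpow_natCast ((2:ℝ) ^ LAT_k z y) 2, ← Real.rpow_mul (by positivity)]
        congr 1
        push_cast
        ring

open Classical in
lemma LAT_shell {d : ℕ} (Y : Finset (Site d)) (z : Site d) (s : ℝ) (hs : 0 ≤ s) (k : ℕ) :
    ∑ y ∈ Y.filter (fun y => LAT_k z y = k), (nsq (y - z) + 1) ^ (-s) ≤
      10 ^ d * 2 ^ s * ((2:ℝ) ^ k) ^ ((d:ℝ) - 2 * s) := by
  have h1 : ∀ y ∈ Y.filter (fun y => LAT_k z y = k),
      (nsq (y - z) + 1) ^ (-s) ≤ 2 ^ s * ((2:ℝ) ^ k) ^ (-(2 * s)) := by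
    intro y hy
    have := LAT_weight z y s hs
    rwa [(Finset.mem_filter.1 hy).2] at this
  have h2 := Finset.sum_le_card_nsmul _ _ _ h1
  have h3 : ((Y.filter (fun y => LAT_k z y = k)).card : ℝ) ≤ (5 * (2:ℝ) ^ (k + 1)) ^ d := by
    apply LAT_card _ z
    · exact one_le_pow₀ (by norm_num)
    · intro y hy
      have := LAT_lt_k z y
      rw [(Finset.mem_filter.1 hy).2] at this
      linarith
  rw [nsmul_eq_mul] at h2
  have h4 : (0:ℝ) ≤ 2 ^ s * ((2:ℝ) ^ k) ^ (-(2 * s)) := by positivity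
  calc _ ≤ _ := h2
    _ ≤ (5 * (2:ℝ) ^ (k + 1)) ^ d * (2 ^ s * ((2:ℝ) ^ k) ^ (-(2 * s))) :=
        mul_le_mul_of_nonneg_right h3 h4
    _ = 10 ^ d * 2 ^ s * ((2:ℝ) ^ k) ^ ((d:ℝ) - 2 * s) := by
        have h5 : (5 * (2:ℝ) ^ (k + 1)) ^ d = 10 ^ d * ((2:ℝ) ^ k) ^ (d:ℝ) := by
          rw [Real.rpow_natCast, ← mul_pow]
          congr 1
          rw [pow_succ]
          ring
        rw [h5, sub_eq_add_neg, Real.rpow_add (by positivity)]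
        ring

open Classical in
lemma LAT_sum {d : ℕ} (Y : Finset (Site d)) (z : Site d) (s : ℝ) (hs : 0 ≤ s) (K0 K : ℕ)
    (h0 : ∀ y ∈ Y, K0 ≤ LAT_k z y) (h1 : ∀ y ∈ Y, LAT_k z y < K) :
    ∑ y ∈ Y, (nsq (y - z) + 1) ^ (-s) ≤
      10 ^ d * 2 ^ s * ∑ k ∈ Finset.Ico K0 K, ((2:ℝ) ^ k) ^ ((d:ℝ) - 2 * s) := by
  rw [← Finset.sum_fiberwise_of_maps_to (s := Y) (t := Finset.Ico K0 K) (g := fun y => LAT_k z y)
    (fun y hy => Finset.mem_Ico.2 ⟨h0 y hy, h1 y hy⟩), Finset.mul_sum]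
  exact Finset.sum_le_sum fun k _ => LAT_shell Y z s hs k

lemma LAT_geo1 (K : ℕ) : ∑ k ∈ Finset.Ico 0 K, ((2:ℝ) ^ k) ^ (2:ℝ) ≤ 4 ^ K := by
  rw [← Finset.range_eq_Ico]
  have h1 : ∀ k ∈ Finset.range K, ((2:ℝ) ^ k) ^ (2:ℝ) = 4 ^ k := by
    intro k _
    rw [show (2:ℝ) = ((2:ℕ):ℝ) by norm_num, Real.rpow_natCast]
    rw [← pow_mul, mul_comm, pow_mul]
    norm_num
  rw [Finset.sum_congr rfl h1]
  induction K with
  | zero => simp
  | succ K ih =>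
    rw [Finset.sum_range_succ]
    have := ih (fun k hk => h1 k (Finset.mem_range.2 (by
      have := Finset.mem_range.1 hk; omega)))
    have h4 : (4:ℝ) ^ (K + 1) = 4 * 4 ^ K := by rw [pow_succ]; ring
    have h5 : (0:ℝ) < 4 ^ K := by positivity
    linarith

lemma LAT_geo2 (K0 K : ℕ) : ∑ k ∈ Finset.Ico K0 K, ((2:ℝ) ^ k) ^ (-2:ℝ) ≤ 2 / 4 ^ K0 := by
  have h1 : ∀ k ∈ Finset.Ico K0 K, ((2:ℝ) ^ k) ^ (-2:ℝ) = 1 / 4 ^ k := by
    intro k _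
    rw [Real.rpow_neg (by positivity), show (2:ℝ) = ((2:ℕ):ℝ) by norm_num, Real.rpow_natCast]
    rw [← pow_mul, mul_comm, pow_mul, one_div]
    norm_num
  rw [Finset.sum_congr rfl h1]
  rcases le_total K K0 with h | h
  · rw [Finset.Ico_eq_empty_of_le h]
    simp
    positivity
  · have : ∀ K, K0 ≤ K → ∑ k ∈ Finset.Ico K0 K, (1:ℝ) / 4 ^ k ≤ 2 * (1 / 4 ^ K0) - 2 * (1 / 4 ^ K) := by
      intro K hK
      induction K, hK using Nat.le_induction with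
      | base => simp
      | succ K hK ih =>
        rw [Finset.sum_Ico_succ_top hK]
        have h4 : (1:ℝ) / 4 ^ (K + 1) = (1 / 4 ^ K) / 4 := by rw [pow_succ]; field_simp
        have h5 : (0:ℝ) < 1 / 4 ^ K := by positivity
        rw [h4]
        linarith
    have h2 := this K h
    have h5 : (0:ℝ) < 1 / 4 ^ K := by positivity
    have h6 : (2:ℝ) / 4 ^ K0 = 2 * (1 / 4 ^ K0) := by ring
    rw [h6]
    linarith

/-- the dyadic index of the radius -/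
noncomputable def LAT_L (ρ : ℝ) : ℕ := Nat.log 2 ⌊ρ + 1⌋₊

lemma LAT_L_le (ρ : ℝ) (hρ : 1 ≤ ρ) : (2:ℝ) ^ LAT_L ρ ≤ 2 * ρ := by
  have h1 : ⌊ρ + 1⌋₊ ≠ 0 := by
    have : 1 ≤ ⌊ρ + 1⌋₊ := Nat.le_floor (by push_cast; linarith)
    omega
  have h2 := Nat.pow_log_le_self 2 h1
  calc (2:ℝ) ^ LAT_L ρ ≤ (⌊ρ + 1⌋₊ : ℝ) := by exact_mod_cast h2
    _ ≤ ρ + 1 := Nat.floor_le (by linarith)
    _ ≤ 2 * ρ := by linarith

lemma LAT_lt_L (ρ : ℝ) : ρ + 1 < (2:ℝ) ^ (LAT_L ρ + 1) := by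
  have h2 := Nat.lt_pow_succ_log_self (b := 2) (by norm_num) ⌊ρ + 1⌋₊
  have h3 : ⌊ρ + 1⌋₊ + 1 ≤ 2 ^ (LAT_L ρ + 1) := h2
  calc ρ + 1 < (⌊ρ + 1⌋₊ : ℝ) + 1 := Nat.lt_floor_add_one _
    _ ≤ (2:ℝ) ^ (LAT_L ρ + 1) := by exact_mod_cast h3

theorem t_LAT : S_LAT := by
  intro d hd
  have hdr : (3:ℝ) ≤ d := by exact_mod_cast hd
  have hbig : (1:ℝ) ≤ 10 ^ d * 2 ^ ((d:ℝ) / 2 + 1) := by
    have h1 : (1:ℝ) ≤ 10 ^ d := one_le_pow₀ (by norm_num)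
    have h2 : (1:ℝ) ≤ 2 ^ ((d:ℝ) / 2 + 1) := Real.one_le_rpow (by norm_num) (by positivity)
    nlinarith
  refine ⟨16 * (10 ^ d * 2 ^ ((d:ℝ) / 2 + 1)), by linarith, ?_⟩
  intro ρ z Y hρ
  have hmono : ∀ s : ℝ, s ≤ (d:ℝ) / 2 + 1 → (10:ℝ) ^ d * 2 ^ s ≤ 10 ^ d * 2 ^ ((d:ℝ) / 2 + 1) := by
    intro s hs
    apply mul_le_mul_of_nonneg_left _ (by positivity)
    exact Real.rpow_le_rpow_of_exponent_le (by norm_num) hs
  refine ⟨fun hY => ?_, fun hY => ?_⟩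
  · have hK : ∀ y ∈ Y, LAT_k z y < LAT_L ρ + 1 := by
      intro y hy
      have h1 : LAT_k z y ≤ LAT_L ρ := by
        apply Nat.log_mono_right
        exact Nat.floor_le_floor (by linarith [hY y hy])
      omega
    refine ⟨?_, ?_, ?_⟩
    · have h1 := LAT_card Y z ρ hρ hY
      rw [mul_pow] at h1
      have h2 : (5:ℝ) ^ d ≤ 16 * (10 ^ d * 2 ^ ((d:ℝ) / 2 + 1)) := by
        have h3 : (5:ℝ) ^ d ≤ 10 ^ d := pow_le_pow_left₀ (by norm_num) (by norm_num) d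
        have h4 : (1:ℝ) ≤ 2 ^ ((d:ℝ) / 2 + 1) := Real.one_le_rpow (by norm_num) (by positivity)
        have h5 : (0:ℝ) < 10 ^ d := by positivity
        nlinarith
      calc (Y.card : ℝ) ≤ 5 ^ d * ρ ^ d := h1
        _ ≤ _ := mul_le_mul_of_nonneg_right h2 (by positivity)
    · have h1 := LAT_sum Y z (bt d) (by unfold bt; linarith) 0 (LAT_L ρ + 1)
        (fun _ _ => Nat.zero_le _) hK
      have h2 : (d:ℝ) - 2 * bt d = 2 := by unfold bt; ring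
      rw [h2] at h1
      have h3 := LAT_geo1 (LAT_L ρ + 1)
      have h4 : (4:ℝ) ^ (LAT_L ρ + 1) ≤ 16 * ρ ^ 2 := by
        have h5 := LAT_L_le ρ hρ
        have h6 : (4:ℝ) ^ (LAT_L ρ + 1) = 4 * ((2:ℝ) ^ LAT_L ρ) ^ 2 := by
          rw [pow_succ, ← pow_mul, mul_comm (LAT_L ρ) 2, pow_mul]
          norm_num
          ring
        rw [h6]
        have h7 : ((2:ℝ) ^ LAT_L ρ) ^ 2 ≤ (2 * ρ) ^ 2 := pow_le_pow_left₀ (by positivity) h5 2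
        nlinarith
      have h5 := hmono (bt d) (by unfold bt; linarith)
      have h6 : (0:ℝ) ≤ 10 ^ d * 2 ^ (bt d) := by positivity
      calc _ ≤ _ := h1
        _ ≤ 10 ^ d * 2 ^ (bt d) * (16 * ρ ^ 2) := mul_le_mul_of_nonneg_left (h3.trans h4) h6
        _ ≤ 10 ^ d * 2 ^ ((d:ℝ) / 2 + 1) * (16 * ρ ^ 2) :=
            mul_le_mul_of_nonneg_right h5 (by positivity)
        _ = _ := by ring
    · have h1 := LAT_sum Y z ((d:ℝ) / 2) (by positivity) 0 (LAT_L ρ + 1)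
        (fun _ _ => Nat.zero_le _) hK
      have h2 : (d:ℝ) - 2 * ((d:ℝ) / 2) = 0 := by ring
      rw [h2] at h1
      simp only [Real.rpow_zero, Finset.sum_const, Nat.card_Ico, Nat.sub_zero, nsmul_eq_mul,
        mul_one] at h1
      have h3 : ((LAT_L ρ + 1 : ℕ) : ℝ) ≤ 16 * (1 + Real.log ρ) := by
        have h4 := LAT_L_le ρ hρ
        have h5 : (LAT_L ρ : ℝ) * Real.log 2 ≤ Real.log 2 + Real.log ρ := by
          rw [← Real.log_pow, ← Real.log_mul (by norm_num) (by linarith)]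
          exact Real.log_le_log (by positivity) h4
        have h6 := Real.log_two_gt_d9
        have h7 : 0 ≤ Real.log ρ := Real.log_nonneg hρ
        have h8 := Real.log_two_lt_d9
        push_cast
        have h9 : (LAT_L ρ : ℝ) * (1/2) ≤ (LAT_L ρ : ℝ) * Real.log 2 :=
          mul_le_mul_of_nonneg_left (by linarith) (by positivity)
        linarith
      have h5 := hmono ((d:ℝ) / 2) (by linarith)
      have h7 : 0 ≤ Real.log ρ := Real.log_nonneg hρ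
      calc _ ≤ _ := h1
        _ ≤ 10 ^ d * 2 ^ ((d:ℝ) / 2) * (16 * (1 + Real.log ρ)) :=
            mul_le_mul_of_nonneg_left h3 (by positivity)
        _ ≤ 10 ^ d * 2 ^ ((d:ℝ) / 2 + 1) * (16 * (1 + Real.log ρ)) :=
            mul_le_mul_of_nonneg_right h5 (by positivity)
        _ = _ := by ring
  · have hK0 : ∀ y ∈ Y, LAT_L ρ ≤ LAT_k z y := by
      intro y hy
      apply Nat.log_mono_right
      exact Nat.floor_le_floor (by linarith [hY y hy])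
    have h1 := LAT_sum Y z ((d:ℝ) / 2 + 1) (by positivity) (LAT_L ρ)
      (Y.sup (fun y => LAT_k z y) + 1) hK0
      (fun y hy => Nat.lt_succ_of_le (Finset.le_sup (f := fun y => LAT_k z y) hy))
    have h2 : (d:ℝ) - 2 * ((d:ℝ) / 2 + 1) = -2 := by ring
    rw [h2] at h1
    have h3 := LAT_geo2 (LAT_L ρ) (Y.sup (fun y => LAT_k z y) + 1)
    have h4 : (2:ℝ) / 4 ^ LAT_L ρ ≤ 16 / ρ ^ 2 := by
      have h5 := LAT_lt_L ρ
      have h6 : ρ ^ 2 ≤ 4 * 4 ^ LAT_L ρ := by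
        have h7 : ρ ^ 2 ≤ ((2:ℝ) ^ (LAT_L ρ + 1)) ^ 2 :=
          pow_le_pow_left₀ (by linarith) (by linarith) 2
        have h8 : ((2:ℝ) ^ (LAT_L ρ + 1)) ^ 2 = 4 * 4 ^ LAT_L ρ := by
          rw [← pow_mul, mul_comm (LAT_L ρ + 1) 2, pow_mul, pow_succ]
          norm_num
          ring
        rwa [h8] at h7
      rw [div_le_div_iff₀ (by positivity) (by positivity)]
      nlinarith
    have h9 : (-((d:ℝ) / 2 + 1)) = -((d:ℝ) / 2) - 1 := by ring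
    rw [h9] at h1
    calc _ ≤ _ := h1
      _ ≤ 10 ^ d * 2 ^ ((d:ℝ) / 2 + 1) * (16 / ρ ^ 2) :=
          mul_le_mul_of_nonneg_left (h3.trans h4) (by positivity)
      _ = _ := by ring

end Pool.Agent.H27.BD
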