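import Pool.Agent.H3.BI.Stm1

/-! Project BD (MP_1354f0), part SML (helper27): the start of a family. -/

set_option autoImplicit false

open Finset

namespace Pool.Agent.H27.BD

open Pool.Agent.H3.BI

lemma SML_nsq_comm {d : ℕ} (x y : Site d) : nsq (x - y) = nsq (y - x) := by
  unfold nsq
  refine Finset.sum_congr rfl fun i _ => ?_
  simp only [Pi.sub_apply, Int.cast_sub]
  ring

theorem t_SML : S_SML := by
  classical
  intro hLAT d k μ γ C hd hμ hγ hC hk0 hk
  obtain ⟨CL, hCL, hL⟩ := hLAT d hd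
  obtain ⟨m, rfl⟩ : ∃ m, d = m + 2 := ⟨d - 2, by omega⟩
  have hden : (0:ℝ) < 16 * μ * C * CL + 1 := by positivity
  obtain ⟨c, hc⟩ : ∃ c : ℝ, c = 1 / (16 * μ * C * CL + 1) := ⟨_, rfl⟩
  have hc0 : 0 < c := by rw [hc]; positivity
  have hc1 : c ≤ 1 := by
    rw [hc, div_le_one hden]
    have : 0 < 16 * μ * C * CL := by positivity
    linarith
  have hcC : 16 * μ * C * CL * c ≤ 1 := by
    have h1 : (16 * μ * C * CL + 1) * c = 1 := by
      rw [hc]; field_simp
    nlinarith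
  have hP : 0 < 16 * μ * C / c ^ m := by positivity
  refine ⟨1 + 1 / c + 16 * μ * C / c ^ m + 4 * (μ * C + γ), ?_, ?_⟩
  · have : 0 < 1 / c := by positivity
    have : 0 < μ * C + γ := by positivity
    linarith
  intro w hw x0 S0 hS hlen
  have hq1 : 0 < 1 / c := by positivity
  have hq2 : 0 < μ * C + γ := by positivity
  set C' := 1 + 1 / c + 16 * μ * C / c ^ m + 4 * (μ * C + γ) with hC'
  have hC'0 : 0 < C' := by rw [hC']; linarith
  have hw1 : 1 ≤ w := by rw [hC'] at hw; linarith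
  have hw0 : 0 < w := by linarith
  have hcw : 1 ≤ c * w := by
    have : 1 / c ≤ w := by rw [hC'] at hw; linarith
    rwa [div_le_iff₀ hc0, mul_comm] at this
  have hsum : (S0.map fun y => k (x0 - y)).sum = ∑ y ∈ S0.toFinset, k (x0 - y) :=
    (List.sum_toFinset _ hS).symm
  have hcard : (S0.toFinset.card : ℝ) = S0.length := by
    rw [List.toFinset_card_of_nodup hS]
  -- near part
  obtain ⟨Y1, hY1⟩ : ∃ Y1, Y1 = S0.toFinset.filter (fun y => nrm (y - x0) ≤ c * w) := ⟨_, rfl⟩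
  obtain ⟨Y2, hY2⟩ : ∃ Y2, Y2 = S0.toFinset.filter (fun y => ¬ nrm (y - x0) ≤ c * w) := ⟨_, rfl⟩
  have hsplit : ∑ y ∈ S0.toFinset, k (x0 - y) = ∑ y ∈ Y1, k (x0 - y) + ∑ y ∈ Y2, k (x0 - y) := by
    rw [hY1, hY2, Finset.sum_filter_add_sum_filter_not]
  have hnear : ∑ y ∈ Y1, k (x0 - y) ≤ C * (CL * (c * w) ^ 2) := by
    have h1 := (hL (c * w) x0 Y1 hcw).1 (fun y hy => by
      rw [hY1] at hy; exact (Finset.mem_filter.1 hy).2)
    calc ∑ y ∈ Y1, k (x0 - y) ≤ ∑ y ∈ Y1, C * (nsq (y - x0) + 1) ^ (-bt (m + 2)) := by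
          refine Finset.sum_le_sum fun y _ => ?_
          have := hk (x0 - y)
          rwa [SML_nsq_comm x0 y] at this
      _ = C * ∑ y ∈ Y1, (nsq (y - x0) + 1) ^ (-bt (m + 2)) := by rw [Finset.mul_sum]
      _ ≤ C * (CL * (c * w) ^ 2) := mul_le_mul_of_nonneg_left h1.2.1 (by linarith)
  have hfar : ∑ y ∈ Y2, k (x0 - y) ≤ w ^ (m + 2) / C' * (C * ((c * w) ^ m)⁻¹) := by
    have h1 : ∀ y ∈ Y2, k (x0 - y) ≤ C * ((c * w) ^ m)⁻¹ := by
      intro y hy
      rw [hY2] at hy
      have h2 : c * w < nrm (y - x0) := not_le.1 (Finset.mem_filter.1 hy).2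
      have h3 := hk (x0 - y)
      rw [SML_nsq_comm x0 y, ← nrm_sq] at h3
      have h4 : (c * w) ^ 2 ≤ nrm (y - x0) ^ 2 + 1 := by
        have := pow_le_pow_left₀ (by positivity) h2.le 2
        linarith
      have h5 : (nrm (y - x0) ^ 2 + 1) ^ (-bt (m + 2)) ≤ ((c * w) ^ 2) ^ (-bt (m + 2)) := by
        apply Real.rpow_le_rpow_of_nonpos (by positivity) h4
        unfold bt
        push_cast
        have : (0:ℝ) ≤ m := by positivity
        linarith
      have h6 : ((c * w) ^ 2) ^ (-bt (m + 2)) = ((c * w) ^ m)⁻¹ := by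
        rw [← Real.rpow_natCast (c * w) 2, ← Real.rpow_mul (by positivity),
          ← Real.rpow_natCast (c * w) m, ← Real.rpow_neg (by positivity)]
        congr 1
        unfold bt
        push_cast
        ring
      rw [h6] at h5
      exact h3.trans (mul_le_mul_of_nonneg_left h5 (by linarith))
    have h2 := Finset.sum_le_card_nsmul _ _ _ h1
    rw [nsmul_eq_mul] at h2
    have h3 : (Y2.card : ℝ) ≤ w ^ (m + 2) / C' := by
      have h4 : (Y2.card : ℝ) ≤ S0.toFinset.card := by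
        rw [hY2]
        exact_mod_cast Finset.card_filter_le _ _
      rw [hcard] at h4
      exact h4.trans hlen
    exact h2.trans (mul_le_mul_of_nonneg_right h3 (by positivity))
  -- numerical estimates
  have e1 : μ * (2 * (C * (CL * (c * w) ^ 2))) ≤ w ^ 2 / 8 := by
    have h1 : μ * (2 * (C * (CL * (c * w) ^ 2))) = (16 * μ * C * CL * c) * c * w ^ 2 / 8 := by ring
    rw [h1]
    have h2 : (16 * μ * C * CL * c) * c ≤ 1 * 1 :=
      mul_le_mul hcC hc1 hc0.le (by norm_num)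
    have h3 : 0 ≤ w ^ 2 := by positivity
    nlinarith
  have e2 : μ * (2 * (w ^ (m + 2) / C' * (C * ((c * w) ^ m)⁻¹))) ≤ w ^ 2 / 8 := by
    have h1 : μ * (2 * (w ^ (m + 2) / C' * (C * ((c * w) ^ m)⁻¹))) =
        (16 * μ * C / c ^ m) / C' * (w ^ 2 / 8) := by
      rw [mul_pow, pow_add]
      field_simp
      ring
    rw [h1]
    have h2 : (16 * μ * C / c ^ m) / C' ≤ 1 := by
      rw [div_le_one hC'0, hC']
      linarith
    have h3 : 0 ≤ w ^ 2 / 8 := by positivity
    nlinarith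
  have e3 : μ * k 0 + γ ≤ w ^ 2 / 4 := by
    have h1 : k 0 ≤ C := by
      have := hk 0
      have h0 : nsq (0 : Site (m + 2)) = 0 := by simp [nsq]
      rw [h0, zero_add, Real.one_rpow, mul_one] at this
      exact this
    have h2 : μ * k 0 ≤ μ * C := mul_le_mul_of_nonneg_left h1 hμ.le
    have h3 : 4 * (μ * C + γ) ≤ w := by rw [hC'] at hw; linarith
    nlinarith
  rw [hsum, hsplit]
  have f1 := mul_le_mul_of_nonneg_left hnear (by positivity : 0 ≤ μ * 2)
  have f2 := mul_le_mul_of_nonneg_left hfar (by positivity : 0 ≤ μ * 2)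
  nlinarith [sq_nonneg w]

end Pool.Agent.H27.BD
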